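import Mathlib

open Filter Topology

namespace Pool.Agent.Results.MP_393faa_an.DirectSum

/-- `T = L⁻¹ S L` with `L` bounded invertible and `S` an isometry: condition (1). -/
def Cond1 {H : Type} [NormedAddCommGroup H] [InnerProductSpace ℂ H]
    (T : H →L[ℂ] H) (L : H ≃L[ℂ] H) : Prop :=
  ∃ S : H →ₗᵢ[ℂ] H, ∀ x, T x = L.symm (S (L x))

/-- Condition (4): `‖T^n x‖ → ‖L x‖` for every `x` (and (1) holds for some isometry). -/
def Cond4 {H : Type} [NormedAddCommGroup H] [InnerProductSpace ℂ H]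
    (T : H →L[ℂ] H) (L : H ≃L[ℂ] H) : Prop :=
  Cond1 T L ∧ ∀ x, Tendsto (fun n : ℕ => ‖(T ^ n) x‖) atTop (𝓝 ‖L x‖)

/-- The product `‖L‖ ‖L⁻¹‖` of operator norms. -/
noncomputable def cost {H : Type} [NormedAddCommGroup H] [InnerProductSpace ℂ H]
    (L : H ≃L[ℂ] H) : ℝ :=
  ‖(L : H →L[ℂ] H)‖ * ‖(L.symm : H →L[ℂ] H)‖

/-- `d(T)`: the infimum of `‖L‖ ‖L⁻¹‖` over all similarities of `T` to an isometry. -/
noncomputable def d {H : Type} [NormedAddCommGroup H] [InnerProductSpace ℂ H]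
    (T : H →L[ℂ] H) : ℝ :=
  sInf {c : ℝ | ∃ L : H ≃L[ℂ] H, Cond1 T L ∧ c = cost L}

/-- The Hilbert space `ℓ²(ℕ)`. -/
abbrev ell2 : Type := lp (fun _ : ℕ => ℂ) 2

/-- the right shift on sequences -/
def shiftFun (x : ℕ → ℂ) : ℕ → ℂ
  | 0 => 0
  | (n+1) => x n

lemma shift_mem {x : ℕ → ℂ} (hx : Memℓp x 2) : Memℓp (shiftFun x) 2 := by
  rw [memℓp_gen_iff (by norm_num)] at hx ⊢
  rw [← summable_nat_add_iff 1]
  exact hx

/-- the right shift as a linear isometry of `ℓ²` -/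
noncomputable def sh : ell2 →ₗᵢ[ℂ] ell2 where
  toFun x := ⟨shiftFun x, shift_mem x.2⟩
  map_add' x y := by
    ext n
    cases n with
    | zero => exact (add_zero (0:ℂ)).symm
    | succ n => rfl
  map_smul' c x := by
    ext n
    cases n with
    | zero => exact (mul_zero c).symm
    | succ n => rfl
  norm_map' x := by
    have h0 : (0:ℝ) < (2:ENNReal).toReal := by norm_num
    have h1 := lp.norm_rpow_eq_tsum h0 x
    have h2 := lp.norm_rpow_eq_tsum h0 (⟨shiftFun x, shift_mem x.2⟩ : ell2)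
    have hs : Summable (fun n => ‖(shiftFun x) n‖ ^ (2:ENNReal).toReal) :=
      (memℓp_gen_iff h0).mp (shift_mem x.2)
    have h3 : (∑' n, ‖(shiftFun x) n‖ ^ (2:ENNReal).toReal) =
        ∑' n, ‖x n‖ ^ (2:ENNReal).toReal := by
      rw [hs.tsum_eq_zero_add]
      simp [shiftFun]
    have h4 : ‖(⟨shiftFun x, shift_mem x.2⟩ : ell2)‖ ^ (2:ENNReal).toReal
        = ‖x‖ ^ (2:ENNReal).toReal := by
      rw [h1, h2]
      exact h3
    have h5 := (Real.rpow_left_inj (norm_nonneg _) (norm_nonneg _) h0.ne').mp h4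
    exact h5

/-- the first basis vector -/
noncomputable def e : ell2 := lp.single 2 0 (1:ℂ)

lemma norm_e : ‖e‖ = 1 := by
  unfold e
  rw [lp.norm_single (by norm_num)]
  simp

lemma inner_e_sh (x : ell2) : inner ℂ e (sh x) = 0 := by
  unfold e
  rw [lp.inner_single_left]
  simp [sh, shiftFun]

/-- the operator that multiplies `e` by `c` and is the identity on its complement -/
noncomputable def D (c : ℝ) : ell2 →L[ℂ] ell2 :=
  ContinuousLinearMap.id ℂ ell2 + (((c - 1 : ℝ) : ℂ)) • (innerSL ℂ e).smulRight e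

lemma D_apply (c : ℝ) (x : ell2) :
    D c x = x + (((c - 1 : ℝ) : ℂ) * inner ℂ e x) • e := by
  simp [D, smul_smul]

lemma inner_e_e : inner ℂ e e = (1:ℂ) := by
  rw [inner_self_eq_norm_sq_to_K, norm_e]; simp

lemma inner_e_D (c : ℝ) (x : ell2) : inner ℂ e (D c x) = (c:ℂ) * inner ℂ e x := by
  rw [D_apply, inner_add_right, inner_smul_right, inner_e_e]
  push_cast
  ring

lemma D_D (c c' : ℝ) (h : c * c' = 1) (x : ell2) : D c (D c' x) = x := by
  rw [D_apply c, inner_e_D, D_apply c', add_assoc, ← add_smul]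
  have h1 : ((c' - 1 : ℝ) : ℂ) * inner ℂ e x + ((c - 1 : ℝ) : ℂ) * ((c':ℂ) * inner ℂ e x) = 0 := by
    have h2 : ((c' - 1 : ℝ) : ℂ) + ((c - 1 : ℝ) : ℂ) * (c':ℂ) = 0 := by
      have : (c' - 1) + (c - 1) * c' = 0 := by linarith
      exact_mod_cast this
    linear_combination (inner ℂ e x) * h2
  rw [h1, zero_smul, add_zero]

lemma D_sh (c : ℝ) (x : ell2) : D c (sh x) = sh x := by
  rw [D_apply, inner_e_sh]; simp

lemma norm_D_sq (c : ℝ) (x : ell2) :
    ‖D c x‖ ^ 2 = ‖x‖ ^ 2 + (c ^ 2 - 1) * ‖inner ℂ e x‖ ^ 2 := by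
  rw [D_apply, norm_add_sq (𝕜 := ℂ), norm_smul, norm_e, inner_smul_right]
  have h1 : RCLike.re (((c - 1 : ℝ) : ℂ) * inner ℂ e x * inner ℂ x e) = (c - 1) * ‖inner ℂ e x‖ ^ 2 := by
    have h2 : inner ℂ x e = (starRingEnd ℂ) (inner ℂ e x) := (inner_conj_symm x e).symm
    rw [h2, mul_assoc, Complex.mul_conj, Complex.normSq_eq_norm_sq]
    rw [← Complex.ofReal_mul]
    exact Complex.ofReal_re _
  rw [h1, norm_mul]
  have h3 : ‖((c - 1 : ℝ) : ℂ)‖ ^ 2 = (c-1)^2 := by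
    rw [Complex.norm_real, Real.norm_eq_abs, sq_abs]
  have : (‖((c - 1 : ℝ) : ℂ)‖ * ‖inner ℂ e x‖ * 1) ^ 2 = (c-1)^2 * ‖inner ℂ e x‖ ^ 2 := by
    rw [mul_one, mul_pow, h3]
  rw [this]
  ring

lemma inner_e_sq_le (x : ell2) : ‖inner ℂ e x‖ ^ 2 ≤ ‖x‖ ^ 2 := by
  have := norm_inner_le_norm (𝕜 := ℂ) e x
  rw [norm_e, one_mul] at this
  exact pow_le_pow_left₀ (norm_nonneg _) this 2

/-- The Hilbert space of the example: `ℓ² ⊕ ℓ²`. -/
abbrev HH : Type := WithLp 2 (ell2 × ell2)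

/-- block diagonal operator -/
noncomputable def blk (A B : ell2 →L[ℂ] ell2) : HH →L[ℂ] HH :=
  ((WithLp.prodContinuousLinearEquiv 2 ℂ ell2 ell2).symm : (ell2 × ell2) →L[ℂ] HH) ∘L
    (A.prodMap B) ∘L ((WithLp.prodContinuousLinearEquiv 2 ℂ ell2 ell2) : HH →L[ℂ] (ell2 × ell2))

lemma blk_apply (A B : ell2 →L[ℂ] ell2) (x : HH) :
    blk A B x = WithLp.toLp 2 (A x.fst, B x.snd) := rfl

lemma blk_blk (A B A' B' : ell2 →L[ℂ] ell2) (x : HH) :
    blk A B (blk A' B' x) = WithLp.toLp 2 (A (A' x.fst), B (B' x.snd)) := rfl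

lemma norm_sq (x : HH) : ‖x‖ ^ 2 = ‖x.fst‖ ^ 2 + ‖x.snd‖ ^ 2 := WithLp.prod_norm_sq_eq_of_L2 x

/-- the similarity: multiply the first basis vector of the first copy by `2`, and that of the second
copy by `1/2`, and the whole second copy by `s`. -/
noncomputable def LL (s : ℝ) (hs : s ≠ 0) : HH ≃L[ℂ] HH :=
  ContinuousLinearEquiv.equivOfInverse (blk (D 2) ((s:ℂ) • D (1/2)))
    (blk (D (1/2)) (((s:ℂ)⁻¹) • D 2)) (by
      intro x
      rw [blk_blk]
      have hs' : (s:ℂ) ≠ 0 := by exact_mod_cast hs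
      simp only [FunLike.coe_smul, Pi.smul_apply, map_smul, smul_smul]
      rw [D_D _ _ (by norm_num), D_D _ _ (by norm_num), mul_inv_cancel₀ hs', one_smul]
      rfl) (by
      intro x
      rw [blk_blk]
      have hs' : (s:ℂ) ≠ 0 := by exact_mod_cast hs
      simp only [FunLike.coe_smul, Pi.smul_apply, map_smul, smul_smul]
      rw [D_D _ _ (by norm_num), D_D _ _ (by norm_num), inv_mul_cancel₀ hs', one_smul]
      rfl)

lemma LL_apply (s : ℝ) (hs : s ≠ 0) (x : HH) :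
    LL s hs x = WithLp.toLp 2 (D 2 x.fst, (s:ℂ) • D (1/2) x.snd) := rfl

lemma LL_symm_apply (s : ℝ) (hs : s ≠ 0) (x : HH) :
    (LL s hs).symm x = WithLp.toLp 2 (D (1/2) x.fst, (s:ℂ)⁻¹ • D 2 x.snd) := rfl

/-- the isometry -/
noncomputable def SS : HH →ₗᵢ[ℂ] HH where
  toLinearMap := (blk sh.toContinuousLinearMap sh.toContinuousLinearMap : HH →ₗ[ℂ] HH)
  norm_map' x := by
    have h : ‖blk sh.toContinuousLinearMap sh.toContinuousLinearMap x‖ ^ 2 = ‖x‖ ^ 2 := by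
      rw [norm_sq, norm_sq, blk_apply]
      simp
    exact (pow_left_inj₀ (norm_nonneg _) (norm_nonneg _) two_ne_zero).mp h

lemma SS_apply (x : HH) : SS x = WithLp.toLp 2 (sh x.fst, sh x.snd) := rfl

/-- the operator of the example -/
noncomputable def TT : HH →L[ℂ] HH :=
  blk (sh.toContinuousLinearMap ∘L D 2) (sh.toContinuousLinearMap ∘L D (1/2))

lemma TT_apply (x : HH) : TT x = WithLp.toLp 2 (sh (D 2 x.fst), sh (D (1/2) x.snd)) := rfl

lemma cond1 (s : ℝ) (hs : s ≠ 0) : Cond1 TT (LL s hs) := by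
  refine ⟨SS, fun x => ?_⟩
  have hs' : (s:ℂ) ≠ 0 := by exact_mod_cast hs
  rw [LL_apply, SS_apply, LL_symm_apply, TT_apply]
  simp only [WithLp.toLp_fst, WithLp.toLp_snd, map_smul, D_sh, smul_smul, inv_mul_cancel₀ hs',
    one_smul]

lemma TT_pow (n : ℕ) (x : HH) : ‖(TT ^ (n+1)) x‖ ^ 2 = ‖D 2 x.fst‖ ^ 2 + ‖D (1/2) x.snd‖ ^ 2 := by
  induction n generalizing x with
  | zero =>
    rw [zero_add, pow_one, TT_apply, norm_sq]
    simp
  | succ n ih =>
    have h : (TT ^ (n+1+1)) x = (TT ^ (n+1)) (TT x) := by rw [pow_succ]; rfl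
    rw [h, ih, TT_apply]
    simp [D_sh]

lemma cond4 : Cond4 TT (LL 1 one_ne_zero) := by
  refine ⟨cond1 1 one_ne_zero, fun x => ?_⟩
  rw [← tendsto_add_atTop_iff_nat 1]
  have h : ∀ n : ℕ, ‖(TT ^ (n+1)) x‖ = ‖LL 1 one_ne_zero x‖ := by
    intro n
    have h1 := TT_pow n x
    have h2 : ‖LL 1 one_ne_zero x‖ ^ 2 = ‖D 2 x.fst‖ ^ 2 + ‖D (1/2) x.snd‖ ^ 2 := by
      rw [LL_apply, norm_sq]
      simp
    rw [← h2] at h1
    exact (pow_left_inj₀ (norm_nonneg _) (norm_nonneg _) two_ne_zero).mp h1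
  simp only [h]
  exact tendsto_const_nhds

lemma cost_ge : 4 ≤ cost (LL 1 one_ne_zero) := by
  have h1 : (2:ℝ) ≤ ‖((LL 1 one_ne_zero : HH ≃L[ℂ] HH) : HH →L[ℂ] HH)‖ := by
    set v : HH := WithLp.toLp 2 (e, 0)
    have hv : ‖v‖ = 1 := by
      have : ‖v‖ ^ 2 = 1 ^ 2 := by rw [norm_sq]; simp [v, norm_e]
      exact (pow_left_inj₀ (norm_nonneg _) zero_le_one two_ne_zero).mp this
    have h2 : ‖LL 1 one_ne_zero v‖ = 2 := by
      have : ‖LL 1 one_ne_zero v‖ ^ 2 = 2 ^ 2 := by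
        rw [LL_apply, norm_sq]
        simp only [v, WithLp.toLp_fst, WithLp.toLp_snd, map_zero, smul_zero, norm_zero]
        rw [norm_D_sq, norm_e, inner_e_e]
        norm_num
      exact (pow_left_inj₀ (norm_nonneg _) (by norm_num) two_ne_zero).mp this
    have h3 := ((LL 1 one_ne_zero : HH ≃L[ℂ] HH) : HH →L[ℂ] HH).le_opNorm v
    rw [hv, mul_one] at h3
    have h4 : ‖((LL 1 one_ne_zero : HH ≃L[ℂ] HH) : HH →L[ℂ] HH) v‖ = 2 := h2
    linarith
  have h2 : (2:ℝ) ≤ ‖((LL 1 one_ne_zero : HH ≃L[ℂ] HH).symm : HH →L[ℂ] HH)‖ := by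
    set v : HH := WithLp.toLp 2 (0, e)
    have hv : ‖v‖ = 1 := by
      have : ‖v‖ ^ 2 = 1 ^ 2 := by rw [norm_sq]; simp [v, norm_e]
      exact (pow_left_inj₀ (norm_nonneg _) zero_le_one two_ne_zero).mp this
    have h2 : ‖(LL 1 one_ne_zero).symm v‖ = 2 := by
      have : ‖(LL 1 one_ne_zero).symm v‖ ^ 2 = 2 ^ 2 := by
        rw [LL_symm_apply, norm_sq]
        simp only [v, WithLp.toLp_fst, WithLp.toLp_snd, map_zero, norm_zero]
        rw [norm_smul, mul_pow, norm_D_sq, norm_e, inner_e_e]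
        norm_num
      exact (pow_left_inj₀ (norm_nonneg _) (by norm_num) two_ne_zero).mp this
    have h3 := ((LL 1 one_ne_zero : HH ≃L[ℂ] HH).symm : HH →L[ℂ] HH).le_opNorm v
    rw [hv, mul_one] at h3
    have h4 : ‖((LL 1 one_ne_zero : HH ≃L[ℂ] HH).symm : HH →L[ℂ] HH) v‖ = 2 := h2
    linarith
  unfold cost
  nlinarith

lemma cost_le : cost (LL 2 two_ne_zero) ≤ 2 := by
  have h1 : ‖((LL 2 two_ne_zero : HH ≃L[ℂ] HH) : HH →L[ℂ] HH)‖ ≤ 2 := by
    apply ContinuousLinearMap.opNorm_le_bound _ (by norm_num)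
    intro x
    have : ‖LL 2 two_ne_zero x‖ ^ 2 ≤ (2 * ‖x‖) ^ 2 := by
      rw [LL_apply, norm_sq, mul_pow, norm_sq x]
      simp only [WithLp.toLp_fst, WithLp.toLp_snd]
      rw [norm_smul, mul_pow, norm_D_sq, norm_D_sq]
      have a1 := inner_e_sq_le x.fst
      have a2 : 0 ≤ ‖inner ℂ e x.snd‖ ^ 2 := by positivity
      norm_num
      nlinarith
    exact (pow_le_pow_iff_left₀ (norm_nonneg _) (by positivity) two_ne_zero).mp this
  have h2 : ‖((LL 2 two_ne_zero : HH ≃L[ℂ] HH).symm : HH →L[ℂ] HH)‖ ≤ 1 := by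
    apply ContinuousLinearMap.opNorm_le_bound _ (by norm_num)
    intro x
    have : ‖(LL 2 two_ne_zero).symm x‖ ^ 2 ≤ (1 * ‖x‖) ^ 2 := by
      rw [LL_symm_apply, norm_sq, mul_pow, norm_sq x]
      simp only [WithLp.toLp_fst, WithLp.toLp_snd]
      rw [norm_smul, mul_pow, norm_D_sq, norm_D_sq]
      have a1 : 0 ≤ ‖inner ℂ e x.fst‖ ^ 2 := by positivity
      have a2 := inner_e_sq_le x.snd
      norm_num
      nlinarith
    exact (pow_le_pow_iff_left₀ (norm_nonneg _) (by positivity) two_ne_zero).mp this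
  unfold cost
  have h3 : 0 ≤ ‖((LL 2 two_ne_zero : HH ≃L[ℂ] HH).symm : HH →L[ℂ] HH)‖ := norm_nonneg _
  have h4 : 0 ≤ ‖((LL 2 two_ne_zero : HH ≃L[ℂ] HH) : HH →L[ℂ] HH)‖ := norm_nonneg _
  nlinarith

/-- There are a complex Hilbert space `H`, a bounded operator `T` on it that is similar to an
isometry, and a similarity `L` with (1) and (4) that is not extremal: `‖L‖‖L⁻¹‖ > d(T)`. -/
theorem result : ∃ (H : Type) (_ : NormedAddCommGroup H) (_ : InnerProductSpace ℂ H)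
    (_ : CompleteSpace H) (T : H →L[ℂ] H) (L : H ≃L[ℂ] H),
    Cond1 T L ∧ Cond4 T L ∧ d T < cost L := by
  refine ⟨HH, inferInstance, inferInstance, inferInstance, TT, LL 1 one_ne_zero,
    cond1 1 one_ne_zero, cond4, ?_⟩
  have h1 : d TT ≤ cost (LL 2 two_ne_zero) := by
    apply csInf_le
    · refine ⟨0, ?_⟩
      rintro c ⟨L, -, rfl⟩
      exact mul_nonneg (norm_nonneg _) (norm_nonneg _)
    · exact ⟨_, cond1 2 two_ne_zero, rfl⟩
  have h2 := cost_le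
  have h3 := cost_ge
  linarith

end Pool.Agent.Results.MP_393faa_an.DirectSum
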